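import Pool.Agent.MP_1246c0_nt.H12.SpecA

/-! The symmetry of the matrices of symbols. -/

namespace Pool.Agent.MP_1246c0_nt.H12

open Finset

namespace SYM

theorem dbl (x : F2) : x + x = 0 := by revert x; decide

theorem sqr (x : F2) : x * x = x := by revert x; decide

theorem coef (R : SRF) (T : SDAT) {n : ℕ} (D : Dat n) (S : Finset ℕ) {l l' : ℕ} (h : Gd n l)
    (h' : Gd n l') : (D.Rc S l l' + fun k => D.Rc S l' l (-k)) =
      (fun k => ∑ j, D.cc l (-j) * D.cc l' (k - j)) +
        (Pi.single 0 (if l = l' then eps l else 0) : Co n) := by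
  funext k
  by_cases e : l = l'
  · subst e
    by_cases hk : k = 0
    · subst hk
      have e : ∑ j, D.cc l (-j) = eps l := by
        rw [← T.ac n D l h]
        exact Fintype.sum_equiv (Equiv.neg _) _ _ fun _ => rfl
      simp only [Pi.add_apply, neg_zero, dbl, zero_sub, sqr, e, if_true, Pi.single_eq_same]
    · have := R n D l l k h h fun _ => hk
      simpa [Dat.Rc, Dat.ow, hk, Pi.single_eq_of_ne] using this
  · have := R n D l l' k h h' fun x => absurd x e
    simpa [Dat.Rc, e, Ne.symm e] using this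

theorem sum_rc (T : SDAT) {n : ℕ} (D : Dat n) (S : Finset ℕ) {l l' : ℕ} (h : Gd n l)
    (h' : Gd n l') : ∑ k, D.Rc S l l' k = R0 S l l' := by
  unfold Dat.Rc R0
  split_ifs with e
  · simp only [Pi.add_apply, sum_add_distrib, T.ao n D l, sum_pi_single', mem_univ, if_true]
  · exact T.ar n D l l' h h' e

theorem sum_zero (f : Co 0) : ∑ k, f k = f 0 :=
  haveI : Subsingleton (ZMod (2 ^ 0)) := inferInstanceAs (Subsingleton (ZMod 1))
  Fintype.sum_subsingleton f 0

end SYM

open SYM in
theorem rowSYM : OfSYM := by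
  intro L R T
  refine ⟨?_, ?_, ?_⟩
  · intro n D Λ ι _ _ _ st au g pr P B G inj hB i hi j hj
    have e : (if i = j then ((au (cv g (D.cc (pr i)))).val : Λ) else 0) =
        cv g (Pi.single 0 (if pr i = pr j then eps (pr i) else 0) : Co n) := by
      rw [L.one, L.au Λ _ st au g G, T.ac n D _ (hB i hi)]
      by_cases x : i = j
      · rw [if_pos x, if_pos (congrArg pr x)]
      · rw [if_neg x, if_neg (inj.ne x)]
        simp
    rw [e]
    simp only [SmN]
    rw [L.st Λ _ st au g G, L.st Λ _ st au g G, L.mul Λ _ g G.lr.two G.pw,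
      ← L.add Λ _ g _ _ G.lr.two, ← L.add Λ _ g _ _ G.lr.two, coef R T D _ (hB i hi) (hB j hj)]
  · intro n D Λ ι _ _ _ st au g pr P i j G hi hj
    simp only [SmN, Sm0]
    rw [L.au Λ _ st au g G, L.au Λ _ st au g G]
    exact ⟨sum_rc T D _ hi hj, T.ac n D _ hi⟩
  · intro D S l l' h h'
    rw [← sum_zero (D.Rc S l l'), ← sum_zero (D.cc l)]
    exact ⟨sum_rc T D S h h', T.ac 0 D l h⟩

end Pool.Agent.MP_1246c0_nt.H12
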