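import Pool.Agent.MP_1246c0_nt.H25.SpecR

/-! Elimination of the eigenvalue by determinants of Krylov type. -/

set_option autoImplicit false

namespace Pool.Agent.MP_1246c0_nt.H25

open Finset Matrix
open Pool.Agent.MP_1246c0_nt.H12

namespace TPR

variable {R R' : Type} [CommRing R] [CommRing R'] {k : ℕ}

/-- the determinant of the iterates of a row -/
def kr (p : ℕ) (r : Fin k → R) (B : Matrix (Fin k) (Fin k) R) : R :=
  (of fun i : Fin k => if i.val < p then r ᵥ* B ^ i.val else Pi.single i 1).det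

theorem kr_map (φ : R →+* R') (p : ℕ) (r : Fin k → R) (B : Matrix (Fin k) (Fin k) R) :
    φ (kr p r B) = kr p (φ ∘ r) (B.map φ) := by
  rw [kr, kr, RingHom.map_det]
  congr 1
  ext i j
  simp only [RingHom.mapMatrix_apply, map_apply, of_apply]
  split_ifs
  · rw [RingHom.map_vecMul, Matrix.map_pow]
  · simp [Pi.single_apply]

theorem kr_smul (μ : R) (a b p : ℕ) (r : Fin k → R) (B : Matrix (Fin k) (Fin k) R) :
    kr p (μ ^ a • r) (μ ^ b • B) =
      μ ^ (∑ i : Fin k, if i.val < p then a + b * i.val else 0) * kr p r B := by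
  rw [kr, kr, ← prod_pow_eq_pow_sum, ← det_mul_column]
  congr 1
  ext i j
  simp only [of_apply]
  split_ifs
  · rw [_root_.smul_pow, vecMul_smul, smul_vecMul, pow_add, pow_mul]
    simp only [Pi.smul_apply, smul_eq_mul]
    ring
  · simp

theorem kr_kill {p : ℕ} {r z : Fin k → R} {B : Matrix (Fin k) (Fin k) R} {u t : R}
    (h1 : ∀ i : Fin k, ¬i.val < p → z i = 0) (h2 : u • B *ᵥ z = t • z) (h3 : u * r ⬝ᵥ z = 0) :
    kr p r B • u ^ p • z = 0 ∧ u ^ p • B ^ p *ᵥ z = t ^ p • z := by
  have h4 : ∀ i : ℕ, u ^ i • B ^ i *ᵥ z = t ^ i • z := fun i => by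
    induction i with
    | zero => simp
    | succ i ih =>
      rw [pow_succ' B, ← mulVec_mulVec, pow_succ' u, mul_smul, ← mulVec_smul, ih, mulVec_smul,
        smul_comm, h2, smul_smul, pow_succ]
  refine ⟨?_, h4 p⟩
  rw [kr, ← one_mulVec (u ^ p • z), ← smul_mulVec, ← adjugate_mul, ← mulVec_mulVec]
  refine (congrArg _ ?_).trans (mulVec_zero _)
  ext i
  change (if i.val < p then r ᵥ* B ^ i.val else Pi.single i 1) ⬝ᵥ _ = 0
  split_ifs with h
  · obtain ⟨q, rfl⟩ := Nat.exists_eq_add_of_lt h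
    rw [← dotProduct_mulVec, mulVec_smul, add_assoc, add_comm, pow_add, mul_smul, h4,
      dotProduct_smul, dotProduct_smul, smul_eq_mul, smul_eq_mul]
    linear_combination u ^ q * t ^ i.val * h3
  · simp [h1 i h]

theorem kr_dvd {p : ℕ} {r : Fin k → R} {B : Matrix (Fin k) (Fin k) R} {t : R}
    (h1 : ∀ a b, ¬a < b → B a b = 0)
    (h2 : ∀ a b : Fin k, b.val = a.val + 1 → b.val < p → IsUnit (B a b)) (h3 : ∀ a, r a ∣ t) :
    kr p r B ∣ t ^ k := by
  have h4 : ∀ (i : ℕ) (b : Fin k), (b.val < i → (r ᵥ* B ^ i) b = 0) ∧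
      (b.val = i → i < p → (r ᵥ* B ^ i) b ∣ t) := fun i => by
    induction i with
    | zero => exact fun b => ⟨by simp, fun _ _ => by simpa using h3 b⟩
    | succ i ih =>
      intro b
      have h5 : ∀ a : Fin k, a.val ≠ i ∨ b.val ≤ i → b.val ≤ i + 1 →
          (r ᵥ* B ^ i) a * B a b = 0 := fun a ha hb => by
        by_cases h : a < b
        · rw [(ih a).1 (by have := Fin.lt_def.1 h; omega), zero_mul]
        · rw [h1 a b h, mul_zero]
      rw [pow_succ, ← vecMul_vecMul]
      change (_ → ∑ a, (r ᵥ* B ^ i) a * B a b = 0) ∧ (_ → _ → ∑ a, (r ᵥ* B ^ i) a * B a b ∣ t)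
      refine ⟨fun hb => sum_eq_zero fun a _ => h5 a (by omega) (by omega), fun hb hp => ?_⟩
      rw [sum_eq_single ⟨i, by omega⟩ (fun a _ ha => h5 a (Or.inl fun h => ha (Fin.ext h)) hb.le)
        (by simp), (h2 _ _ hb (by omega)).mul_right_dvd]
      exact (ih _).2 rfl (by omega)
  rw [kr, det_of_isUpperTriangular]
  · refine (prod_dvd_prod_of_dvd _ (fun _ => t) fun i _ => ?_).trans (by simp)
    rw [of_apply]
    split_ifs with h
    · exact (h4 _ i).2 rfl h
    · simp
  · intro i j (h : j < i)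
    rw [of_apply]
    split_ifs
    · exact (h4 _ j).1 h
    · exact Pi.single_eq_of_ne h.ne _

/-- a polynomial function that detects solutions -/
structure Gd (k p : ℕ)
    (F : ∀ (R : Type) [CommRing R], Matrix (Fin k) (Fin k) R → (Fin k → R) → R) : Prop where
  nat : ∀ (R R' : Type) [CommRing R] [CommRing R'] (φ : R →+* R') M c,
    φ (F R M c) = F R' (M.map φ) (φ ∘ c)
  hom : ∃ e, ∀ (R : Type) [CommRing R] (μ : R) M c, F R (μ • M) c = μ ^ e * F R M c
  test : ∀ (R : Type) [CommRing R] c (t : R), (∀ l, c l ∣ t) →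
    ∃ C, (∀ l, C l l = 0) ∧ F R C c ∣ t ^ k
  van : ∀ (R : Type) [CommRing R] M c (u v : R) x z, u = 1 ∨ v = 1 → M *ᵥ x = u • z →
    (∀ l : Fin k, (l.val < p → x l = v * z l) ∧ (¬l.val < p → z l = 0)) → c ⬝ᵥ x = 0 →
    ∀ l : Fin k, v = 1 ∨ ¬l.val < p → F R M c * x l = 0

theorem gd_one {p : ℕ} (h : p = 0 ∨ k ≤ p) : Gd k p fun _ _ M c => kr k c M where
  nat _ _ _ _ φ M c := kr_map φ _ _ _
  hom := ⟨_, fun R _ μ M c => by
    have := kr_smul μ 0 1 k c M
    rwa [pow_zero, pow_one, one_smul] at this⟩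
  test R _ c t h := ⟨of fun a b => if b.val = a.val + 1 then 1 else 0, fun l => by simp,
    kr_dvd (fun a b h => if_neg fun e => h (by rw [Fin.lt_def]; omega))
      (fun a b e _ => by simp [e]) h⟩
  van R _ M c u v x z _ h2 h3 h4 l h5 := by
    obtain ⟨t, ht⟩ : ∃ t : R, (1 : R) • M *ᵥ x = t • x := by
      rcases h with h | h
      · exact ⟨0, by rw [h2, show z = 0 from funext fun l => (h3 l).2 (by omega)]; simp⟩
      · refine ⟨u, ?_⟩
        rw [one_smul, h2, show x = z from funext fun a => ?_]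
        rw [(h3 a).1 (by omega), h5.resolve_right (by omega), one_mul]
    simpa using congrFun (kr_kill (p := k) (r := c) (fun i h => absurd i.2 h) ht (by simp [h4])).1 l

/-- the projection -/
def pj (R : Type) [CommRing R] (k p : ℕ) : Matrix (Fin k) (Fin k) R :=
  diagonal fun i => if i.val < p then 1 else 0

theorem gd_two {p : ℕ} (h0 : 0 < p) (h : p < k + 1) : Gd (k + 1) p fun R _ M c =>
    M.det ^ (p + 1) * kr p (c ᵥ* M.adjugate) (pj R _ p * M.adjugate) where
  nat R R' _ _ φ M c := by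
    have h1 : M.adjugate.map φ = (M.map φ).adjugate := φ.map_adjugate M
    rw [map_mul, map_pow, RingHom.map_det, kr_map, Matrix.map_mul, h1, pj, pj,
      diagonal_map (map_zero φ)]
    congr 2
    · ext i
      rw [Function.comp, RingHom.map_vecMul, h1]
    · simp [apply_ite φ]
  hom := ⟨_, fun R _ μ M c => by
    rw [det_smul, adjugate_smul, vecMul_smul, Matrix.mul_smul, kr_smul, mul_pow, ← pow_mul,
      mul_mul_mul_comm, ← pow_add]⟩
  test R _ c t hc := by
    set σ := finRotate (k + 1)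
    have h1 : σ⁻¹.permMatrix R * σ.permMatrix R = 1 := by
      rw [← permMatrix_mul, mul_inv_cancel, permMatrix_one]
    have h2 := isUnit_det_of_right_inverse h1
    have h3 : (σ⁻¹.permMatrix R).adjugate = (σ⁻¹.permMatrix R).det • σ.permMatrix R := by
      rw [← Matrix.mul_one (adjugate _), ← h1, ← Matrix.mul_assoc, adjugate_mul, smul_mul_assoc,
        Matrix.one_mul]
    have h4 : ∀ a b : Fin (k + 1), σ.permMatrix R a b = if σ a = b then 1 else 0 := fun a b => by
      simp [PEquiv.toMatrix_apply, eq_comm]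
    have h5 : ∀ a : Fin (k + 1), (σ a).val = if a.val = k then 0 else a.val + 1 := fun a => by
      simp only [σ, coe_finRotate, Fin.ext_iff, Fin.val_last]
    refine ⟨σ⁻¹.permMatrix R, fun l => ?_, ?_⟩
    · rw [← transpose_permMatrix, transpose_apply, h4, if_neg fun e => ?_]
      have := h5 l
      rw [e] at this
      split_ifs at this <;> omega
    · rw [(h2.pow _).mul_left_dvd, h3]
      refine kr_dvd (fun a b e => ?_) (fun a b e e' => ?_) fun a => ?_
      · rw [pj, diagonal_mul, Matrix.smul_apply, h4]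
        split_ifs with e1 e2
        · have := h5 a
          rw [e2, if_neg (by omega)] at this
          exact absurd (by rw [Fin.lt_def]; omega) e
        all_goals simp
      · rw [pj, diagonal_mul, Matrix.smul_apply, h4, if_pos (by omega),
          if_pos (Fin.ext (by rw [h5, if_neg (by omega), e]))]
        simpa only [smul_eq_mul, mul_one, one_mul] using h2
      · rw [vecMul_smul, vecMul_permMatrix, Pi.smul_apply, smul_eq_mul, h2.mul_left_dvd]
        exact hc _
  van R _ M c u v x z h1 h2 h3 h4 l _ := by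
    have h5 : M.det • x = u • M.adjugate *ᵥ z := by
      rw [← mulVec_smul, ← h2, mulVec_mulVec, adjugate_mul, smul_mulVec, one_mulVec]
    obtain ⟨h6, h7⟩ := kr_kill (p := p) (r := c ᵥ* M.adjugate) (B := pj R _ p * M.adjugate) (u := u)
      (t := M.det * v) (fun i => (h3 i).2) (by
        rw [← mulVec_mulVec, ← mulVec_smul, ← h5]
        ext i
        rw [pj, mulVec_diagonal]
        split_ifs with e
        · simp [(h3 i).1 e, mul_assoc]
        · simp [(h3 i).2 e]) (by
        rw [← dotProduct_mulVec, ← smul_eq_mul, ← dotProduct_smul, ← h5, dotProduct_smul, h4,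
          smul_zero])
    generalize kr p (c ᵥ* M.adjugate) (pj R _ p * M.adjugate) = κ at h6 ⊢
    have h8 : κ • M.det ^ p • z = 0 := by
      rcases h1 with rfl | rfl
      · rw [one_pow, one_smul] at h6
        rw [smul_comm, h6, smul_zero]
      · rw [mul_one] at h7
        rw [← h7, ← mulVec_smul, ← mulVec_smul, h6, mulVec_zero]
    have h9 : (M.det ^ (p + 1) * κ) • x = 0 := by
      rw [pow_succ, mul_comm, ← mul_assoc, mul_smul, h5, smul_comm, ← mulVec_smul, mul_smul, h8,
        mulVec_zero, smul_zero]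
    exact congrFun h9 l

theorem gd_ex (k p : ℕ) : ∃ F, Gd k p F := by
  by_cases h : p = 0 ∨ k ≤ p
  · exact ⟨_, gd_one h⟩
  · obtain ⟨k, rfl⟩ : ∃ k', k = k' + 1 := ⟨k - 1, by omega⟩
    exact ⟨_, gd_two (by omega) (by omega)⟩

open MvPolynomial in
theorem deg_sub {σ τ : Type} (s : σ → MvPolynomial τ R) (h : ∀ i, (s i).totalDegree ≤ 1)
    (F : MvPolynomial σ ℤ) : (eval₂Hom (Int.castRingHom _) s F).totalDegree ≤ F.totalDegree := by
  rw [coe_eval₂Hom, eval₂_eq]
  refine totalDegree_finsetSum_le fun m hm => (totalDegree_mul _ _).trans ?_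
  rw [eq_intCast, ← map_intCast (C : R →+* _), totalDegree_C, zero_add]
  refine (totalDegree_finsetProd _ _).trans (le_trans (sum_le_sum fun i _ => ?_) (le_totalDegree hm))
  exact (totalDegree_pow _ _).trans (by simpa using Nat.mul_le_mul_left _ (h i))

variable {Λ : Type} [CommRing Λ] {st : Λ →+* Λ} {au : Λ →+* F2} {g : Λ} {n : ℕ}

theorem dvd_tau {τ : Λ} {N : ℕ} (h : LR st au τ N) (j : ℕ) (x : Λ) (hx : ¬τ ^ j ∣ x) :
    x ∣ τ ^ j := by
  induction j generalizing x with
  | zero => simp at hx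
  | succ j ih =>
    by_cases h1 : au x = 0
    · obtain ⟨y, rfl⟩ := (h.ker x).1 h1
      rw [pow_succ'] at hx ⊢
      exact mul_dvd_mul_left _ (ih y fun h => hx (mul_dvd_mul_left _ h))
    · obtain ⟨y, hy⟩ := (h.ker (x - 1)).1 (by
        rw [map_sub, map_one]
        generalize au x = a at h1
        revert a
        decide)
      rw [eq_add_of_sub_eq hy]
      exact ((Commute.all τ y).isNilpotent_mul_right ⟨N, h.nil⟩).isUnit_add_one.dvd

open Polynomial in
theorem tau_le (h : LG st au g (2 ^ n)) {a c : ℕ} (hc : c ≤ 2 ^ n)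
    (ha : (g - 1) ^ c ∣ (g - 1) ^ a) : c ≤ a := by
  obtain ⟨φ, hφ⟩ := h.lift _ (AdjoinRoot.mk (X ^ c : F2[X]) (X + 1))
    ((map_ofNat (AdjoinRoot.mk _) 2).symm.trans
      ((congrArg _ CharTwo.two_eq_zero).trans (map_zero _))) (by
      rw [← map_pow, add_pow_char_pow, map_add, one_pow, map_one,
        AdjoinRoot.mk_eq_zero.2 (pow_dvd_pow _ hc), zero_add])
  have := map_dvd φ ha
  simp only [map_pow φ, map_sub φ, hφ, map_one, map_add, add_sub_cancel_right] at this
  rw [← map_pow, ← map_pow, AdjoinRoot.mk_self, zero_dvd_iff, AdjoinRoot.mk_eq_zero] at this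
  exact (pow_dvd_pow_iff X_ne_zero not_isUnit_X).1 this

/-- the family over any ring -/
def Hm {ι : Type} [DecidableEq ι] (u v : R) (y : ι × ι → R) : Matrix ι ι R :=
  fun l l' => if l = l' then 0 else y (l, l') * u + y (l', l) * v

open MvPolynomial in
theorem fin (k p j : ℕ) : ∃ D c : ℕ, ∀ (n : ℕ) (Λ : Type) [CommRing Λ] (st : Λ →+* Λ)
    (au : Λ →+* F2) (g : Λ) (S : Matrix (Fin k) (Fin k) Λ) (c0 : Fin k → Λ),
    LG st au g (2 ^ n) → c ≤ 2 ^ n → (∀ l, ¬(g - 1) ^ j ∣ c0 l) →
    ∃ f : MvPolynomial (Fin k × Fin k) Λ, f.totalDegree ≤ D ∧ (∃ m, ¬(g - 1) ^ c ∣ f.coeff m) ∧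
      ∀ y b, BadT (S + HH st g y) c0 (univ.filter fun l => l.val < p) b → eval y f = 0 := by
  obtain ⟨F, hF⟩ := gd_ex k p
  obtain ⟨e, he⟩ := hF.hom
  refine ⟨(F (MvPolynomial (Fin k × Fin k ⊕ Fin k) ℤ) (of fun a b => X (.inl (a, b)))
    fun a => X (.inr a)).totalDegree, 4 * e + j * k + 1, fun n Λ _ st au g S c0 h hc h0 => ?_⟩
  set A : Matrix (Fin k) (Fin k) (MvPolynomial (Fin k × Fin k) Λ) :=
    S.map C + Hm (C g) (C (st g)) X with hA
  have hψ : ∀ (R : Type) [CommRing R] (φ : Λ →+* R) (y : Fin k × Fin k → R),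
      eval₂Hom φ y (F _ A (C ∘ c0)) = F R (S.map φ + Hm (φ g) (φ (st g)) y) (φ ∘ c0) :=
    fun R _ φ y => by
      rw [hF.nat, hA]
      congr 1
      · ext a b
        simp [Hm, apply_ite (eval₂ φ y)]
      · ext
        simp
  refine ⟨F _ A (C ∘ c0), ?_, ?_, ?_⟩
  · refine le_trans (le_of_eq ?_) (deg_sub (Sum.elim (fun q : _ × _ => A q.1 q.2) (C ∘ c0)) ?_ _)
    · rw [hF.nat]
      congr 2 <;> ext <;> simp
    · have h1 : ∀ (q : Fin k × Fin k) (u : Λ), (X q * C u : MvPolynomial _ Λ).totalDegree ≤ 1 :=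
        fun q u => (totalDegree_mul _ _).trans (by
          simpa [X] using totalDegree_monomial_le (Finsupp.single q 1) (1 : Λ))
      rintro (⟨a, b⟩ | a)
      · refine (totalDegree_add _ _).trans (max_le (by simp) ?_)
        unfold Hm
        split_ifs
        · simp
        · exact (totalDegree_add _ _).trans (max_le (h1 _ _) (h1 _ _))
      · simp
  · by_contra h1
    obtain ⟨f, hf⟩ := (C_dvd_iff_dvd_coeff _ _).2 fun m => not_not.1 (not_exists.1 h1 m)
    obtain ⟨M, h2, h3⟩ := hF.test Λ c0 _ fun l => dvd_tau h.lr j _ (h0 l)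
    let I := Ideal.span {(g - 1) ^ (4 * e + j * k + 1)}
    let π := Ideal.Quotient.mk I
    let φ := Polynomial.toLaurent.comp (Polynomial.C.comp π)
    have h4 := hψ _ φ fun q =>
      LaurentPolynomial.T (-1) * φ (M q.1 q.2 * g + M q.2 q.1 * st g)
    have h5 : φ ((g - 1) ^ (4 * e + j * k + 1)) = 0 := by
      simp only [φ, π, I, RingHom.comp_apply, Ideal.Quotient.mk_singleton_self, map_zero]
    rw [hf, map_mul, eval₂Hom_C, h5, zero_mul] at h4
    have h6 : Polynomial.toLaurent (F _ ((Polynomial.X : Polynomial (Λ ⧸ I)) •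
        S.map (Polynomial.C.comp π) + ((g + st g) ^ 2 • M).map (Polynomial.C.comp π))
        (Polynomial.C.comp π ∘ c0)) = 0 := by
      rw [hF.nat, ← mul_zero (LaurentPolynomial.T 1 ^ e), h4, ← he]
      congr 1
      ext1 a b
      have h7 : LaurentPolynomial.T 1 * LaurentPolynomial.T (-1) = φ 1 := by
        rw [← LaurentPolynomial.T_add, map_one]
        rfl
      have h8 : φ 2 = 0 := by rw [h.lr.two, map_zero]
      simp only [map_apply, Matrix.add_apply, Matrix.smul_apply, smul_eq_mul, map_add, map_mul, map_pow,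
        Polynomial.toLaurent_X, Hm, ← RingHom.comp_apply Polynomial.toLaurent, map_one,
        map_ofNat] at h7 h8 ⊢
      change _ * φ _ + (φ _ + φ _) ^ 2 * φ _ = _
      split_ifs with h9
      · simp [h9, h2]
      · linear_combination (-(φ (M a b) * φ g + φ (M b a) * φ (st g)) * φ g -
          (φ (M b a) * φ g + φ (M a b) * φ (st g)) * φ (st g)) * h7 +
          (φ (M a b) - φ (M b a)) * φ g * φ (st g) * h8
    have h7 := congrArg (Polynomial.evalRingHom 0)
      (Polynomial.toLaurent_injective (h6.trans (map_zero _).symm))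
    have h8 : π (F Λ ((g + st g) ^ 2 • M) c0) = 0 := by
      rw [hF.nat, ← map_zero (Polynomial.evalRingHom 0), ← h7, hF.nat]
      congr 1 <;> ext1 <;> simp
    rw [Ideal.Quotient.eq_zero_iff_mem, Ideal.mem_span_singleton, he] at h8
    have h9 : (g + st g) ^ 2 ∣ (g - 1) ^ 4 := ⟨g ^ 2, by
      have e1 : (g + st g) * g = (g - 1) ^ 2 := by linear_combination h.sg + g * h.lr.two
      rw [← mul_pow, e1, ← pow_mul]⟩
    have := tau_le h hc (h8.trans ((mul_dvd_mul (pow_dvd_pow_of_dvd h9 e) h3).trans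
      (by rw [← pow_mul, ← pow_mul, ← pow_add])))
    omega
  · rintro y b ⟨R, _, φ, ν, w, h1, h2, h3, l, h4, h5⟩
    refine h1 ?_
    rw [map_zero, show eval y (F _ A (C ∘ c0)) = _ from hψ Λ (RingHom.id Λ) y, hF.nat]
    simp only [mem_filter, mem_univ, true_and] at h2 h3 h5
    have h6 := hF.van R ((S + HH st g y).map φ) (φ ∘ c0) (if b = true then 1 else ν)
      (if b = true then ν else 1) (fun l => if l.val < p ∧ b = true then ν * w l else w l)
      (fun l => if l.val < p then w l else 0) (by cases b <;> simp)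
      (funext fun l => (h2 l).trans (by cases b <;> simp))
      (fun l => ⟨fun e => by cases b <;> simp [e], fun e => if_neg e⟩) h3 l
      (by cases b <;> simp [h5])
    rw [if_neg fun e => h5 e.2 e.1, h4.mul_left_eq_zero] at h6
    exact h6

theorem ex_equiv {ι : Type} [Fintype ι] [DecidableEq ι] (P : Finset ι) :
    ∃ e : Fin (Fintype.card ι) ≃ ι, ∀ i, e i ∈ P ↔ i.val < P.card := by
  have h : P.card + Pᶜ.card = Fintype.card ι := card_add_card_compl P
  refine ⟨(finCongr h.symm).trans (finSumFinEquiv.symm.trans ((Equiv.sumCongr P.equivFin.symm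
    (Pᶜ.equivFin.symm.trans (Equiv.subtypeEquivRight fun _ => mem_compl))).trans
    (Equiv.sumCompl (· ∈ P)))), fun i => ?_⟩
  obtain ⟨s, rfl⟩ := (finSumFinEquiv.trans (finCongr h)).surjective i
  rcases s with s | s
  · simp
  · simpa using mem_compl.1 (Pᶜ.equivFin.symm s).2

end TPR

open TPR MvPolynomial in
theorem rowTPR : STPR := by
  intro K j
  choose D c h using fun q : ℕ × ℕ => fin q.1 q.2 j
  refine ⟨(Iic (K, K)).sup D, (Iic (K, K)).sup c, fun n Λ ι _ _ _ st au g S c0 P b h1 h2 h3 h4 => ?_⟩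
  obtain ⟨e, he⟩ := ex_equiv P
  have h5 : (Fintype.card ι, P.card) ∈ Iic (K, K) := mem_Iic.2 ⟨h3, P.card_le_univ.trans h3⟩
  obtain ⟨f, h6, ⟨m, h7⟩, h8⟩ := h (Fintype.card ι, P.card) n Λ st au g (S.submatrix e e) (c0 ∘ e)
    h1 ((le_sup h5).trans h2) fun l => h4 _
  refine ⟨rename (Prod.map e e) f, (totalDegree_rename_le _ _).trans (h6.trans (le_sup h5)),
    ⟨m.mapDomain (Prod.map e e), fun h => h7 ?_⟩, ?_⟩
  · rw [coeff_rename_mapDomain _ (e.injective.prodMap e.injective)] at h
    exact (pow_dvd_pow _ (le_sup h5)).trans h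
  · rintro y ⟨R, _, φ, ν, w, k1, k2, k3, l, k4, k5⟩
    rw [eval_rename]
    refine h8 _ b ⟨R, _, φ, ν, w ∘ e, k1, fun l => ?_, ?_, e.symm l, by simpa using k4, ?_⟩
    · have := k2 (e l)
      rw [← e.sum_comp] at this
      simpa [he, HH] using this
    · rw [← e.sum_comp] at k3
      simpa [he] using k3
    · simpa [← he] using k5

end Pool.Agent.MP_1246c0_nt.H25
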