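import Pool.Agent.MP_1246c0_nt.H25.SpecA
import Pool.Agent.MP_db5b97_nt.H85.NT

/-! The index of the ray modulo squares. -/

set_option autoImplicit false

namespace Pool.Agent.MP_1246c0_nt.H25

open NumberField IsDedekindDomain Pool.Agent.MP_db5b97_nt.H85

namespace YB1

theorem rel_le {A X : Type} [AddCommGroup A] [Finite X] (H K : AddSubgroup A) (f : K → X)
    (h : ∀ a b, f a = f b → -a.1 + b.1 ∈ H) : H.relIndex K ≤ Nat.card X := by
  refine Nat.card_le_card_of_injective (fun q => f q.out) fun q q' e => ?_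
  rw [← QuotientAddGroup.out_eq' q, ← QuotientAddGroup.out_eq' q', QuotientAddGroup.eq]
  exact h _ _ e

variable {L : Type} [Field L] [NumberField L]

theorem idx_Ru : (Ru L 2 ⊔ Db ⊤).index ≠ 0 ∧ (Ru L 2 ⊔ Db ⊤).index ≤ 2 ^ Nat.card (Pl L 2) := by
  have := Pl_finite (F := L) two_ne_zero
  have := Fintype.ofFinite (Pl L 2)
  let φ : Un L →+ (Pl L 2 → ℤ) := AddMonoidHom.pi fun w => ord w.1
  have h1 : Ru L 2 ⊔ Db ⊤ = (φ.range.map (nsmulAddMonoidHom 2)).comap φ := by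
    have h2 : φ.range.map (nsmulAddMonoidHom 2) = (Db ⊤).map φ := by
      rw [φ.range_eq_map, Db, AddSubgroup.map_map, AddSubgroup.map_map]
      congr 1
      exact AddMonoidHom.ext fun x => (map_nsmul φ 2 x).symm
    rw [h2, AddSubgroup.comap_map_eq, sup_comm]
    congr 1
    ext x
    rw [mem_Ru_iff_ord, AddMonoidHom.mem_ker, funext_iff]
    rfl
  rw [h1, AddSubgroup.index_comap, AddSubgroup.relIndex_map_nsmul]
  refine ⟨by positivity, Nat.pow_le_pow_right two_pos ?_⟩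
  exact (Submodule.finrank_le φ.range.toIntSubmodule).trans (by simp)

theorem sub_mem_Ray {m : ℕ} {a b : Un L} (ha : a ∈ Ru L 2) (hb : b ∈ Ru L 2)
    (h : ∀ w : Sp L, ((2 : ℕ) : 𝓞 L) ∈ w.asIdeal →
      w.valuation L (b.val - a.val) ≤ w.valuation L ((2 : ℕ) : L) ^ m) : -a + b ∈ Ray L 2 m := by
  refine ⟨add_mem (neg_mem ha) hb, fun w hw => ?_⟩
  have e : (-a + b).val - 1 = a.val⁻¹ * (b.val - a.val) := by
    rw [Un.val_add, Un.val_neg, mul_sub, inv_mul_cancel₀ a.val_ne]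
  rw [e, map_mul, map_inv₀, ha w hw, inv_one, one_mul]
  exact h w hw

theorem step {m : ℕ} (hm : 1 ≤ m) :
    (Ray L 2 (m + 1)).relIndex (Ray L 2 m) ≤ 2 ^ Module.finrank ℚ L := by
  have : Finite (𝓞 L ⧸ Ideal.span {((2 : ℕ) : 𝓞 L)}) :=
    Ideal.finiteQuotientOfFreeOfNeBot _ (by simp)
  choose y hy e using fun x : Ray L 2 m => (mem_Ray_iff two_ne_zero hm).1 x.2
  choose z t ht e' using fun x => exists_int_approx (hy x) 1
  rw [← RingOfIntegers.rank, ← Ideal.absNorm_span_natCast, Ideal.absNorm_apply,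
    Submodule.cardQuot_apply]
  refine rel_le _ _ (fun x => Ideal.Quotient.mk _ (z x)) fun a b h => ?_
  obtain ⟨c, hc⟩ := Ideal.mem_span_singleton'.1 (Ideal.Quotient.eq.1 h)
  have hc' := congrArg (fun t : 𝓞 L => (t : L)) hc
  simp only [map_mul, map_natCast, map_sub] at hc'
  refine sub_mem_Ray a.2.1 b.2.1 fun w hw => ?_
  have e1 : b.1.val - a.1.val = ((2 : ℕ) : L) ^ (m + 1) * (t b - t a - c) := by
    rw [e a, e b, e' a, e' b]
    linear_combination ((2 : ℕ) : L) ^ m * hc'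
  rw [e1, map_mul, map_pow]
  exact mul_le_of_le_one_right' ((mem_Rl_iff two_ne_zero).1
    (sub_mem (sub_mem (ht _) (ht _)) (coe_mem_Rl c)) w hw)

omit [NumberField L] in
theorem pm {Γ : Type} [LinearOrderedCommGroupWithZero Γ] (v : Valuation L Γ) {m : ℕ} {x : L}
    (h : v (x ^ 2 - 1) ≤ v ((2 : ℕ) : L) ^ (m + 1)) (h1 : ¬v (x - 1) ≤ v ((2 : ℕ) : L) ^ m) :
    v (x + 1) ≤ v ((2 : ℕ) : L) ^ m := by
  by_contra h2
  rw [not_le] at h1 h2
  rw [show x ^ 2 - 1 = (x + 1) * (x - 1) by ring, map_mul, pow_succ] at h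
  have h3 : v ((2 : ℕ) : L) ≤ max (v (x + 1)) (v (x - 1)) := by
    rw [show ((2 : ℕ) : L) = (x + 1) - (x - 1) by push_cast; ring]
    exact v.map_sub _ _
  rcases le_max_iff.1 h3 with h4 | h4
  · rw [mul_comm (v (x + 1))] at h
    exact h.not_gt (mul_lt_mul_of_lt_of_le_of_nonneg_of_pos h1 h4 zero_le (zero_le.trans_lt h2))
  · exact h.not_gt (mul_lt_mul_of_lt_of_le_of_nonneg_of_pos h2 h4 zero_le (zero_le.trans_lt h1))

theorem ker_le_Ru (m : ℕ) : (Ray L 2 m).comap (nsmulAddMonoidHom 2) ≤ Ru L 2 := fun x hx => by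
  refine mem_Ru_iff_ord.2 fun w => ?_
  have := mem_Ru_iff_ord.1 hx.1 w
  simpa using this

theorem ker_idx (m : ℕ) : (Ray L 2 m).relIndex ((Ray L 2 (m + 1)).comap (nsmulAddMonoidHom 2)) ≤
    2 ^ Nat.card (Pl L 2) := by
  have := Pl_finite (F := L) two_ne_zero
  have h0 : Nat.card (Pl L 2 → Prop) = 2 ^ Nat.card (Pl L 2) := by
    rw [Nat.card_fun, Nat.card_eq_fintype_card, Fintype.card_prop]
  rw [← h0]
  refine rel_le _ _ (fun x w => w.1.valuation L (x.1.val - 1) ≤ w.1.valuation L ((2 : ℕ) : L) ^ m)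
    fun a b h => sub_mem_Ray (ker_le_Ru _ a.2) (ker_le_Ru _ b.2) fun w hw => ?_
  have h1 := eq_iff_iff.1 (congrFun h ⟨w, hw⟩)
  by_cases h2 : w.valuation L (a.1.val - 1) ≤ w.valuation L ((2 : ℕ) : L) ^ m
  · rw [show b.1.val - a.1.val = (b.1.val - 1) - (a.1.val - 1) by ring]
    exact Valuation.map_sub_le _ (h1.1 h2) h2
  · rw [show b.1.val - a.1.val = (b.1.val + 1) - (a.1.val + 1) by ring]
    exact Valuation.map_sub_le _ (pm _ (by simpa using b.2.2 w hw) fun h3 => h2 (h1.2 h3))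
      (pm _ (by simpa using a.2.2 w hw) h2)

theorem le_ker {m : ℕ} (hm : 1 ≤ m) :
    Ray L 2 m ≤ (Ray L 2 (m + 1)).comap (nsmulAddMonoidHom 2) := fun x hx => by
  obtain ⟨y, hy, e⟩ := (mem_Ray_iff two_ne_zero hm).1 hx
  obtain ⟨k, rfl⟩ := Nat.exists_eq_add_of_le' hm
  refine (mem_Ray_iff two_ne_zero (by omega)).2 ⟨y + ((2 : ℕ) : L) ^ k * y ^ 2,
    add_mem hy (mul_mem (pow_mem (natCast_mem _ 2) _) (pow_mem hy _)), ?_⟩
  rw [nsmulAddMonoidHom_apply, Un.val_nsmul, e]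
  push_cast
  ring

theorem unit_idx {m : ℕ} (hm : 1 ≤ m) :
    (Ray L 2 (m + 1) ⊔ Db (Ru L 2)).relIndex (Ru L 2) ≤
      2 ^ Nat.card (Pl L 2) * 2 ^ Module.finrank ℚ L := by
  have h0 := Ray_relIndex_ne (F := L) two_ne_zero (m + 1)
  have h1 := AddSubgroup.relIndex_mul_relIndex (Ray L 2 (m + 1)) (Ray L 2 (m + 1) ⊔ Db (Ru L 2))
    (Ru L 2) le_sup_left (sup_le (Ray_le_Ru _) (by
      rintro _ ⟨x, hx, rfl⟩
      exact nsmul_mem hx 2))
  rw [AddSubgroup.relIndex_sup_left, Db, ← AddSubgroup.relIndex_comap] at h1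
  have h2 := AddSubgroup.relIndex_mul_relIndex _ _ _ (le_ker (L := L) hm) (ker_le_Ru (m + 1))
  have h3 := AddSubgroup.relIndex_mul_relIndex _ _ _ (Ray_anti (F := L) (l := 2) m.le_succ)
    (Ray_le_Ru m)
  have h4 := left_ne_zero_of_mul (h1 ▸ h0)
  refine Nat.le_of_mul_le_mul_left ?_ (Nat.pos_of_ne_zero h4)
  rw [Db, h1, ← h3, ← h2, mul_comm, mul_comm (AddSubgroup.relIndex _ _), mul_assoc]
  exact Nat.mul_le_mul_left _ (Nat.mul_le_mul (ker_idx m) (step hm))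

end YB1

open YB1 in
theorem rowYB1 : SYB1 := by
  intro L _ _ m
  have h1 := AddSubgroup.relIndex_mul_index (H := Ray L 2 (m + 1 + 1) ⊔ Db ⊤)
    (K := Ru L 2 ⊔ Db ⊤) (sup_le_sup_right (Ray_le_Ru _) _)
  have h2 : Ru L 2 ⊔ Db ⊤ = Ru L 2 ⊔ (Ray L 2 (m + 1 + 1) ⊔ Db ⊤) := by
    rw [← sup_assoc, sup_eq_left.2 (Ray_le_Ru _)]
  have h0 := Ray_relIndex_ne (F := L) two_ne_zero (m + 1 + 1)
  have h3 : (Ray L 2 (m + 1 + 1) ⊔ Db ⊤).relIndex (Ru L 2 ⊔ Db ⊤) =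
      (Ray L 2 (m + 1 + 1) ⊔ Db ⊤).relIndex (Ru L 2) := by
    rw [h2, AddSubgroup.relIndex_sup_right]
  have h4 : (Ray L 2 (m + 1 + 1) ⊔ Db ⊤).index ≠ 0 := by
    rw [← h1, h3]
    exact mul_ne_zero (fun h => h0 (AddSubgroup.relIndex_eq_zero_of_le_left le_sup_left h)) idx_Ru.1
  have h5 := AddSubgroup.index_dvd_of_le (sup_le_sup_right
    (Ray_anti (F := L) (l := 2) (show m ≤ m + 1 + 1 by omega)) (Db ⊤))
  refine ⟨ne_zero_of_dvd_ne_zero h4 h5, (Nat.le_of_dvd (Nat.pos_of_ne_zero h4) h5).trans ?_⟩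
  rw [← h1, h3, show 4 = 2 * 2 from rfl, mul_pow, mul_right_comm]
  refine Nat.mul_le_mul (le_trans ?_ (unit_idx (m := m + 1) (by omega))) idx_Ru.2
  exact AddSubgroup.relIndex_le_of_le_left (sup_le_sup_left (AddSubgroup.map_mono le_top) _)
    fun h => h0 (AddSubgroup.relIndex_eq_zero_of_le_left le_sup_left h)

end Pool.Agent.MP_1246c0_nt.H25
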